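import Mathlib

/-!
The polarity graph: `(a, b, c) ~ (a', b', c')` iff `b + c' = a τ(a')` and `c + b' = τ(a) a'`, where
`τ` is an automorphism of the finite field `F` with `τ (τ x) = x ^ 2`.
-/

namespace Pool.Agent.Q257.C6

variable {F : Type*} [Field F] (τ : F →+* F)

/-- the relation -/
def Rel (x y : F × F × F) : Prop :=
  x.2.1 + y.2.2 = x.1 * τ y.1 ∧ x.2.2 + y.2.1 = τ x.1 * y.1

lemma Rel.symm {x y : F × F × F} (h : Rel τ x y) : Rel τ y x := by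
  obtain ⟨h1, h2⟩ := h
  exact ⟨by linear_combination h2, by linear_combination h1⟩

/-- the graph -/
def Gr : SimpleGraph (F × F × F) where
  Adj x y := x ≠ y ∧ Rel τ x y
  symm := ⟨fun _ _ h => ⟨h.1.symm, h.2.symm τ⟩⟩
  loopless := ⟨fun _ h => h.1 rfl⟩

/-- the neighbour of `x` with the first coordinate `a` -/
def nb (x : F × F × F) (a : F) : F × F × F := (a, τ x.1 * a - x.2.2, x.1 * τ a - x.2.1)

lemma rel_nb (x : F × F × F) (a : F) : Rel τ x (nb τ x a) := by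
  constructor
  · simp only [nb]; ring
  · simp only [nb]; ring

lemma eq_nb {x y : F × F × F} (h : Rel τ x y) : y = nb τ x y.1 := by
  obtain ⟨a, b, c⟩ := y
  obtain ⟨h1, h2⟩ := h
  simp only at h1 h2
  simp only [nb, Prod.mk.injEq, true_and]
  exact ⟨by linear_combination h2, by linear_combination h1⟩

lemma eq_of_rel {x y z : F × F × F} (h : Rel τ x y) (h' : Rel τ x z) (he : y.1 = z.1) : y = z := by
  rw [eq_nb τ h, eq_nb τ h', he]

/-- two steps -/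
lemma two_steps {x y z : F × F × F} (h : Rel τ x y) (h' : Rel τ y z) :
    z.2.1 = x.2.1 + (z.1 - x.1) * τ y.1 ∧ z.2.2 = x.2.2 + (τ z.1 - τ x.1) * y.1 := by
  obtain ⟨h1, h2⟩ := h
  obtain ⟨h3, h4⟩ := h'
  exact ⟨by linear_combination h4 - h1, by linear_combination h3 - h2⟩

/-- no 4-cycles -/
lemma no_four {x y y' z : F × F × F} (h1 : Rel τ x y) (h2 : Rel τ y z) (h3 : Rel τ x y')
    (h4 : Rel τ y' z) (hne : x ≠ z) : y = y' := by
  have h5 : z.1 - x.1 ≠ 0 := by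
    intro h
    exact hne (eq_of_rel τ (h1.symm τ) h2 (sub_eq_zero.1 h).symm)
  apply eq_of_rel τ h1 h3
  apply τ.injective
  apply mul_left_cancel₀ h5
  have h6 := (two_steps τ h1 h2).1
  have h7 := (two_steps τ h3 h4).1
  linear_combination h7 - h6

/-- three steps: the first coordinate of the third vertex is determined unless the ends are
related -/
lemma three_steps (hτ : ∀ x, τ (τ x) = x ^ 2) {x0 x1 x2 x3 : F × F × F} (h1 : Rel τ x0 x1)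
    (h2 : Rel τ x1 x2) (h3 : Rel τ x2 x3) :
    x2.1 * (x0.2.1 + x3.2.2 - x0.1 * τ x3.1) =
      τ (x0.2.2 + x3.2.1) - x0.1 * (x0.2.1 + x3.2.2) := by
  obtain ⟨h4, h5⟩ := two_steps τ h1 h2
  obtain ⟨h6, h7⟩ := h3
  -- first equation: x3.c = a2 y3 - b2
  have e1 : x0.2.1 + x3.2.2 = x2.1 * τ x3.1 - (x2.1 - x0.1) * τ x1.1 := by
    linear_combination h6 - h4
  have e2 : x0.2.2 + x3.2.1 = τ x2.1 * x3.1 - (τ x2.1 - τ x0.1) * x1.1 := by
    linear_combination h7 - h5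
  have e3 : τ (x0.2.2 + x3.2.1) = x2.1 ^ 2 * τ x3.1 - (x2.1 ^ 2 - x0.1 ^ 2) * τ x1.1 := by
    rw [e2, map_sub, map_mul, map_mul, map_sub, hτ, hτ]
  rw [e3, e1]
  ring

/-- no 6-cycles -/
lemma no_six (hτ : ∀ x, τ (τ x) = x ^ 2) {x0 x1 x2 x3 x4 x5 : F × F × F} (h1 : Rel τ x0 x1)
    (h2 : Rel τ x1 x2) (h3 : Rel τ x2 x3) (h4 : Rel τ x3 x4) (h5 : Rel τ x4 x5)
    (h6 : Rel τ x5 x0) (h24 : x2 ≠ x4) (h02 : x0 ≠ x2) (h13 : x1 ≠ x3) : False := by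
  have e1 := three_steps τ hτ h1 h2 h3
  have e2 := three_steps τ hτ (h6.symm τ) (h5.symm τ) (h4.symm τ)
  by_cases h : x0.2.1 + x3.2.2 - x0.1 * τ x3.1 = 0
  · -- the ends are related
    have h7 : Rel τ x0 x3 := by
      refine ⟨sub_eq_zero.1 h, ?_⟩
      rw [h, mul_zero] at e1
      apply τ.injective
      rw [map_mul, hτ]
      linear_combination -e1 + x0.1 * h
    exact h13 (no_four τ h1 h2 h7 (h3.symm τ) h02)
  · have h7 : x2.1 = x4.1 := mul_right_cancel₀ h (by rw [e1, e2])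
    exact h24 (eq_of_rel τ (h3.symm τ) h4 h7)

/-- the walk with given first coordinates -/
lemma walk_of (hτ : ∀ x, τ (τ x) = x ^ 2) (x0 x5 : F × F × F) (u w a1 a3 : F) (hu : u ≠ 0)
    (hw : w ≠ 0) (huw : w - u ≠ 0)
    (h1 : (τ a1 - τ x5.1) * (u * w) = (x0.1 * τ x5.1 - (x0.2.1 + x5.2.2)) * (u + w) +
      (τ (x0.2.2 + x5.2.1) + x0.1 ^ 2 * τ x5.1 - 2 * x0.1 * (x0.2.1 + x5.2.2)))
    (h3 : (τ a3 - τ x5.1) * (w * (w - u)) = -((x0.1 * τ x5.1 - (x0.2.1 + x5.2.2)) * u +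
      (τ (x0.2.2 + x5.2.1) + x0.1 ^ 2 * τ x5.1 - 2 * x0.1 * (x0.2.1 + x5.2.2)))) :
    ∃ x1 x2 x3 x4 : F × F × F, Rel τ x0 x1 ∧ Rel τ x1 x2 ∧ Rel τ x2 x3 ∧ Rel τ x3 x4 ∧
      Rel τ x4 x5 ∧ x1.1 = a1 ∧ x2.1 = x0.1 + u ∧ x3.1 = a3 ∧ x4.1 = x0.1 + w := by
  set x1 := nb τ x0 a1 with hx1
  set x2 := nb τ x1 (x0.1 + u) with hx2
  set x3 := nb τ x2 a3 with hx3
  set x4 := nb τ x3 (x0.1 + w) with hx4
  have r1 := rel_nb τ x0 a1
  have r2 := rel_nb τ x1 (x0.1 + u)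
  have r3 := rel_nb τ x2 a3
  have r4 := rel_nb τ x3 (x0.1 + w)
  rw [← hx1] at r1
  rw [← hx2] at r2
  rw [← hx3] at r3
  rw [← hx4] at r4
  have f1 : x1.1 = a1 := rfl
  have f2 : x2.1 = x0.1 + u := rfl
  have f3 : x3.1 = a3 := rfl
  have f4 : x4.1 = x0.1 + w := rfl
  refine ⟨x1, x2, x3, x4, r1, r2, r3, r4, ?_, f1, f2, f3, f4⟩
  obtain ⟨g1, g2⟩ := two_steps τ r1 r2
  obtain ⟨g3, g4⟩ := two_steps τ r3 r4
  rw [f1, f2] at g1 g2
  rw [f2, f3, f4] at g3 g4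
  set S := x0.1 * τ x5.1 - (x0.2.1 + x5.2.2) with hS
  set T := τ (x0.2.2 + x5.2.1) + x0.1 ^ 2 * τ x5.1 - 2 * x0.1 * (x0.2.1 + x5.2.2) with hT
  have k1 : u * τ a1 + (w - u) * τ a3 = w * τ x5.1 + S := by
    apply mul_left_cancel₀ hw
    linear_combination h1 + h3
  constructor
  · rw [f4, g3, g1]
    linear_combination k1
  · apply τ.injective
    have k2 : τ (x4.2.2 + x5.2.1) = τ (x0.2.2 + x5.2.1) +
        ((x0.1 + u) ^ 2 - x0.1 ^ 2) * τ a1 + ((x0.1 + w) ^ 2 - (x0.1 + u) ^ 2) * τ a3 := by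
      rw [g4, g2]
      simp only [map_add, map_sub, map_mul, hτ]
      have e2 : τ (τ u) = u ^ 2 := hτ u
      have e3 : (τ (τ x0.1) + τ (τ u)) = (x0.1 + u) ^ 2 := by
        rw [← map_add, ← map_add, hτ]
      have e4 : (τ (τ x0.1) + τ (τ w)) = (x0.1 + w) ^ 2 := by
        rw [← map_add, ← map_add, hτ]
      rw [hτ, hτ] at e3 e4
      linear_combination (τ a1) * e3 + (τ a3) * (e4 - e3)
    rw [k2, f4, map_mul, hτ]
    have k3 : u ^ 2 * τ a1 + (w - u) * (w + u) * τ a3 = w ^ 2 * τ x5.1 - T := by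
      apply mul_left_cancel₀ hw
      linear_combination u * h1 + (w + u) * h3
    rw [hT] at k3
    rw [hS] at k1
    linear_combination k3 + 2 * x0.1 * k1

end Pool.Agent.Q257.C6
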