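import Mathlib

/-!
Counting the good pairs of parameters.
-/

namespace Pool.Agent.Q257.C6

open Finset

section Rels

variable {F : Type*} [Fintype F]

/-- the elements with a property -/
noncomputable def fil {α : Type*} [Fintype α] (P : α → Prop) : Finset α := by
  classical
  exact univ.filter P

lemma mem_fil {α : Type*} [Fintype α] {P : α → Prop} {x : α} : x ∈ fil P ↔ P x := by
  unfold fil
  simp

/-- the pairs of a relation -/
noncomputable def prs (R : F → F → Prop) : Finset (F × F) := fil (fun p : F × F => R p.1 p.2)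

lemma mem_prs {R : F → F → Prop} {p : F × F} : p ∈ prs R ↔ R p.1 p.2 := mem_fil

/-- the number of pairs of a relation, by columns -/
lemma card_rel_le (R : F → F → Prop) (d : ℕ) (h : ∀ u, #(fil (fun w => R u w)) ≤ d) :
    #(prs R) ≤ d * Fintype.card F := by
  classical
  have h1 : prs R =
      (univ : Finset F).biUnion (fun u => (fil (fun w => R u w)).image (fun w => (u, w))) := by
    ext ⟨u, w⟩
    simp [mem_prs, mem_fil]
  rw [h1]
  calc _ ≤ ∑ u : F, #((fil (fun w => R u w)).image (fun w => (u, w))) := card_biUnion_le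
    _ ≤ ∑ u : F, d := Finset.sum_le_sum fun u _ => card_image_le.trans (h u)
    _ = d * Fintype.card F := by rw [Finset.sum_const, card_univ, smul_eq_mul, mul_comm]

/-- the number of pairs of a relation, by rows -/
lemma card_rel_le' (R : F → F → Prop) (d : ℕ) (h : ∀ w, #(fil (fun u => R u w)) ≤ d) :
    #(prs R) ≤ d * Fintype.card F := by
  classical
  have h1 : prs R =
      (univ : Finset F).biUnion (fun w => (fil (fun u => R u w)).image (fun u => (u, w))) := by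
    ext ⟨u, w⟩
    simp [mem_prs, mem_fil]
  rw [h1]
  calc _ ≤ ∑ w : F, #((fil (fun u => R u w)).image (fun u => (u, w))) := card_biUnion_le
    _ ≤ ∑ w : F, d := Finset.sum_le_sum fun w _ => card_image_le.trans (h w)
    _ = d * Fintype.card F := by rw [Finset.sum_const, card_univ, smul_eq_mul, mul_comm]

/-- at most one solution -/
lemma card_le_one_of (P : F → Prop) (h : ∀ x y, P x → P y → x = y) : #(fil P) ≤ 1 := by
  rw [Finset.card_le_one]
  intro x hx y hy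
  exact h x y (mem_fil.1 hx) (mem_fil.1 hy)

/-- at most two solutions -/
lemma card_le_two_of (P : F → Prop) (g : F → F) (h : ∀ x y, P x → P y → y = x ∨ y = g x) :
    #(fil P) ≤ 2 := by
  classical
  by_cases he : ∃ x, P x
  · obtain ⟨x, hx⟩ := he
    calc #(fil P) ≤ #({x, g x} : Finset F) := by
          apply card_le_card
          intro y hy
          have := h x y hx (mem_fil.1 hy)
          simpa using this
      _ ≤ 2 := card_le_two
  · have : fil P = ∅ := by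
      ext x
      simp only [mem_fil, notMem_empty, iff_false]
      exact fun hx => he ⟨x, hx⟩
    rw [this]
    simp

end Rels

variable {F : Type*} [Field F] [Fintype F] [DecidableEq F]

/-- the first coordinate of the second vertex -/
def A1 (ρ : F → F) (σ S T u w : F) : F := ρ (σ + (S * (u + w) + T) / (u * w))

/-- the first coordinate of the fourth vertex -/
def A3 (ρ : F → F) (σ S T u w : F) : F := ρ (σ - (S * u + T) / (w * (w - u)))

/-- the four first coordinates -/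
def quad (ρ : F → F) (a0 σ S T : F) (p : F × F) : Finset F :=
  {A1 ρ σ S T p.1 p.2, a0 + p.1, A3 ρ σ S T p.1 p.2, a0 + p.2}

/-- the good pairs -/
def Good (ρ : F → F) (a0 a5 σ S T u w : F) : Prop :=
  u ≠ 0 ∧ w ≠ 0 ∧ w ≠ u ∧ a0 + u ≠ a5 ∧ a0 + w ≠ a5 ∧ S * u + T ≠ 0 ∧ S * w + T ≠ 0 ∧
    (A1 ρ σ S T u w ≠ a0 ∧ A1 ρ σ S T u w ≠ a5 ∧ A1 ρ σ S T u w ≠ a0 + u ∧
      A1 ρ σ S T u w ≠ a0 + w) ∧
    (A3 ρ σ S T u w ≠ a0 ∧ A3 ρ σ S T u w ≠ a5 ∧ A3 ρ σ S T u w ≠ a0 + u ∧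
      A3 ρ σ S T u w ≠ a0 + w)

section Lemmas

variable {τ ρ : F → F} (hρ : ∀ x, τ (ρ x) = x)

omit [Fintype F] [DecidableEq F]

include hρ

lemma A1_eq {σ S T u w b : F} (hu : u ≠ 0) (hw : w ≠ 0) (h : A1 ρ σ S T u w = b) :
    (τ b - σ) * (u * w) = S * (u + w) + T := by
  rw [← h, A1, hρ]
  field_simp
  ring

lemma A3_eq {σ S T u w b : F} (hw : w ≠ 0) (hwu : w ≠ u) (h : A3 ρ σ S T u w = b) :
    (τ b - σ) * (w * (w - u)) = -(S * u + T) := by
  have hwu' : w - u ≠ 0 := sub_ne_zero.2 hwu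
  rw [← h, A3, hρ]
  field_simp
  ring

/-- for a fixed `u`, at most one `w` -/
lemma A1_unique {σ S T u w w' b : F} (hu : u ≠ 0) (hw : w ≠ 0) (hw' : w' ≠ 0)
    (hne : S * u + T ≠ 0) (h : A1 ρ σ S T u w = b) (h' : A1 ρ σ S T u w' = b) : w = w' := by
  have e := A1_eq hρ hu hw h
  have e' := A1_eq hρ hu hw' h'
  have h1 : ((τ b - σ) * u - S) * w = S * u + T := by linear_combination e
  have h2 : ((τ b - σ) * u - S) * w' = S * u + T := by linear_combination e'
  have h3 : (τ b - σ) * u - S ≠ 0 := by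
    intro h0
    rw [h0, zero_mul] at h1
    exact hne h1.symm
  exact mul_left_cancel₀ h3 (h1.trans h2.symm)

/-- for a fixed `u`, at most two `w` -/
lemma A3_two {σ S T u w w' b : F} (hw : w ≠ 0) (hwu : w ≠ u) (hw' : w' ≠ 0) (hwu' : w' ≠ u)
    (hne : S * u + T ≠ 0) (h : A3 ρ σ S T u w = b) (h' : A3 ρ σ S T u w' = b) :
    w' = w ∨ w' = u - w := by
  have e := A3_eq hρ hw hwu h
  have e' := A3_eq hρ hw' hwu' h'
  have h3 : (τ b - σ) ≠ 0 := by
    intro h0
    rw [h0, zero_mul] at e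
    exact hne (neg_eq_zero.1 e.symm)
  have h4 : w * (w - u) = w' * (w' - u) := mul_left_cancel₀ h3 (e.trans e'.symm)
  have h5 : (w' - w) * (w' - (u - w)) = 0 := by linear_combination -h4
  rcases mul_eq_zero.1 h5 with h6 | h6
  · exact Or.inl (sub_eq_zero.1 h6)
  · exact Or.inr (sub_eq_zero.1 h6)

/-- for a fixed `w`, at most one `u` -/
lemma A1_unique' {σ S T u u' w b : F} (hu : u ≠ 0) (hu' : u' ≠ 0) (hw : w ≠ 0)
    (hne : S * w + T ≠ 0) (h : A1 ρ σ S T u w = b) (h' : A1 ρ σ S T u' w = b) : u = u' := by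
  have e := A1_eq hρ hu hw h
  have e' := A1_eq hρ hu' hw h'
  have h1 : ((τ b - σ) * w - S) * u = S * w + T := by linear_combination e
  have h2 : ((τ b - σ) * w - S) * u' = S * w + T := by linear_combination e'
  have h3 : (τ b - σ) * w - S ≠ 0 := by
    intro h0
    rw [h0, zero_mul] at h1
    exact hne h1.symm
  exact mul_left_cancel₀ h3 (h1.trans h2.symm)

/-- for a fixed `w`, at most one `u` -/
lemma A3_unique' {σ S T u u' w b : F} (hw : w ≠ 0) (hwu : w ≠ u) (hwu' : w ≠ u')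
    (hne : S * w + T ≠ 0) (h : A3 ρ σ S T u w = b) (h' : A3 ρ σ S T u' w = b) : u = u' := by
  have e := A3_eq hρ hw hwu h
  have e' := A3_eq hρ hw hwu' h'
  have h1 : (S - (τ b - σ) * w) * u = -((τ b - σ) * w) * w - T := by linear_combination e
  have h2 : (S - (τ b - σ) * w) * u' = -((τ b - σ) * w) * w - T := by linear_combination e'
  have h3 : S - (τ b - σ) * w ≠ 0 := by
    intro h0
    rw [h0, zero_mul] at h1
    apply hne
    linear_combination w * h0 + h1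
  exact mul_left_cancel₀ h3 (h1.trans h2.symm)

end Lemmas

omit [Fintype F] [DecidableEq F] in
/-- the second and the fourth vertices differ -/
lemma A1_ne_A3 {τ ρ : F → F} (hρ : ∀ x, τ (ρ x) = x) {σ S T u w : F} (hu : u ≠ 0) (hw : w ≠ 0)
    (hwu : w ≠ u) (hne : S * w + T ≠ 0) : A1 ρ σ S T u w ≠ A3 ρ σ S T u w := by
  intro h
  have e := A1_eq hρ hu hw h
  have e' := A3_eq hρ (σ := σ) (S := S) (T := T) hw hwu rfl
  have h1 : w * (S * w + T) = 0 := by linear_combination u * e' - (w - u) * e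
  rcases mul_eq_zero.1 h1 with h2 | h2
  · exact hw h2
  · exact hne h2

omit [Fintype F] in
/-- four distinct coordinates -/
lemma card_quad {τ ρ : F → F} (hρ : ∀ x, τ (ρ x) = x) {a0 a5 σ S T : F} {p : F × F}
    (h : Good ρ a0 a5 σ S T p.1 p.2) : #(quad ρ a0 σ S T p) = 4 := by
  obtain ⟨hu, hw, hwu, h1, h2, h3, h4, ⟨h5, h6, h7, h8⟩, h9, h10, h11, h12⟩ := h
  have h13 := A1_ne_A3 hρ (σ := σ) hu hw hwu h4
  have h14 : a0 + p.1 ≠ a0 + p.2 := fun h => hwu (add_left_cancel h).symm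
  unfold quad
  rw [card_insert_of_notMem, card_insert_of_notMem, card_insert_of_notMem, card_singleton]
  · simpa using h12
  · simp only [mem_insert, mem_singleton, not_or]
    exact ⟨fun h => h11 h.symm, h14⟩
  · simp only [mem_insert, mem_singleton, not_or]
    exact ⟨h7, h13, h8⟩

/-- the number of good pairs -/
theorem card_good {τ ρ : F → F} (hρ : ∀ x, τ (ρ x) = x) (a0 a5 σ S T : F)
    (hST : ¬ (S = 0 ∧ T = 0)) :
    Fintype.card F * Fintype.card F ≤
      #(prs (Good ρ a0 a5 σ S T)) + 18 * Fintype.card F := by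
  have hlin : ∀ x y : F, S * x + T = 0 → S * y + T = 0 → x = y := by
    intro x y hx hy
    have hS : S ≠ 0 := by
      intro h
      rw [h, zero_mul, zero_add] at hx
      exact hST ⟨h, hx⟩
    apply mul_left_cancel₀ hS
    linear_combination hx - hy
  -- the relations
  let R1 : F → F → Prop := fun u _ => u = 0
  let R2 : F → F → Prop := fun _ w => w = 0
  let R3 : F → F → Prop := fun u w => w = u
  let R4 : F → F → Prop := fun u _ => a0 + u = a5
  let R5 : F → F → Prop := fun _ w => a0 + w = a5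
  let R6 : F → F → Prop := fun u _ => S * u + T = 0
  let R7 : F → F → Prop := fun _ w => S * w + T = 0
  let Q1 : (F → F) → F → F → Prop := fun b u w =>
    (u ≠ 0 ∧ w ≠ 0 ∧ S * u + T ≠ 0) ∧ A1 ρ σ S T u w = b u
  let Q3 : (F → F) → F → F → Prop := fun b u w =>
    (w ≠ 0 ∧ w ≠ u ∧ S * u + T ≠ 0) ∧ A3 ρ σ S T u w = b u
  let R14 : F → F → Prop := fun u w =>
    (u ≠ 0 ∧ w ≠ 0 ∧ S * w + T ≠ 0) ∧ A1 ρ σ S T u w = a0 + w
  let R15 : F → F → Prop := fun u w =>
    (w ≠ 0 ∧ w ≠ u ∧ S * w + T ≠ 0) ∧ A3 ρ σ S T u w = a0 + w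
  have c1 : #(prs R1) ≤ 1 * Fintype.card F :=
    card_rel_le' R1 1 fun w => card_le_one_of _ (by rintro x y hx hy; exact hx.trans hy.symm)
  have c2 : #(prs R2) ≤ 1 * Fintype.card F :=
    card_rel_le R2 1 fun w => card_le_one_of _ (by rintro x y hx hy; exact hx.trans hy.symm)
  have c3 : #(prs R3) ≤ 1 * Fintype.card F :=
    card_rel_le R3 1 fun w => card_le_one_of _ (by rintro x y hx hy; exact hx.trans hy.symm)
  have c4 : #(prs R4) ≤ 1 * Fintype.card F :=
    card_rel_le' R4 1 fun w => card_le_one_of _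
      (by rintro x y hx hy; exact add_left_cancel (hx.trans hy.symm))
  have c5 : #(prs R5) ≤ 1 * Fintype.card F :=
    card_rel_le R5 1 fun w => card_le_one_of _
      (by rintro x y hx hy; exact add_left_cancel (hx.trans hy.symm))
  have c6 : #(prs R6) ≤ 1 * Fintype.card F :=
    card_rel_le' R6 1 fun w => card_le_one_of _ (by rintro x y hx hy; exact hlin x y hx hy)
  have c7 : #(prs R7) ≤ 1 * Fintype.card F :=
    card_rel_le R7 1 fun w => card_le_one_of _ (by rintro x y hx hy; exact hlin x y hx hy)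
  have cQ1 : ∀ b : F → F, #(prs (Q1 b)) ≤ 1 * Fintype.card F := fun b =>
    card_rel_le (Q1 b) 1 fun u => card_le_one_of _ (by
      rintro x y ⟨⟨hu, hw, hne⟩, he⟩ ⟨⟨-, hw', -⟩, he'⟩
      exact A1_unique hρ hu hw hw' hne he he')
  have cQ3 : ∀ b : F → F, #(prs (Q3 b)) ≤ 2 * Fintype.card F := fun b =>
    card_rel_le (Q3 b) 2 fun u => card_le_two_of _ (fun w => u - w) (by
      rintro x y ⟨⟨hw, hwu, hne⟩, he⟩ ⟨⟨hw', hwu', -⟩, he'⟩
      exact A3_two hρ hw hwu hw' hwu' hne he he')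
  have c14 : #(prs R14) ≤ 1 * Fintype.card F :=
    card_rel_le' R14 1 fun w => card_le_one_of _ (by
      rintro x y ⟨⟨hu, hw, hne⟩, he⟩ ⟨⟨hu', -, -⟩, he'⟩
      exact A1_unique' hρ hu hu' hw hne he he')
  have c15 : #(prs R15) ≤ 1 * Fintype.card F :=
    card_rel_le' R15 1 fun w => card_le_one_of _ (by
      rintro x y ⟨⟨hw, hwu, hne⟩, he⟩ ⟨⟨-, hwu', -⟩, he'⟩
      exact A3_unique' hρ hw hwu hwu' hne he he')
  have hcov : (univ : Finset (F × F)) ⊆
      prs (Good ρ a0 a5 σ S T) ∪ (prs R1 ∪ (prs R2 ∪ (prs R3 ∪ (prs R4 ∪ (prs R5 ∪ (prs R6 ∪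
      (prs R7 ∪ (prs (Q1 (fun _ => a0)) ∪ (prs (Q1 (fun _ => a5)) ∪
      (prs (Q1 (fun u => a0 + u)) ∪ (prs (Q3 (fun _ => a0)) ∪ (prs (Q3 (fun _ => a5)) ∪
      (prs (Q3 (fun u => a0 + u)) ∪ (prs R14 ∪ prs R15)))))))))))))) := by
    rintro ⟨u, w⟩ -
    by_contra hcon
    simp only [mem_union, mem_prs, not_or] at hcon
    obtain ⟨hG, h1, h2, h3, h4, h5, h6, h7, h8, h9, h10, h11, h12, h13, h14, h15⟩ := hcon
    exact hG ⟨h1, h2, h3, h4, h5, h6, h7,
      ⟨fun h => h8 ⟨⟨h1, h2, h6⟩, h⟩, fun h => h9 ⟨⟨h1, h2, h6⟩, h⟩,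
        fun h => h10 ⟨⟨h1, h2, h6⟩, h⟩, fun h => h14 ⟨⟨h1, h2, h7⟩, h⟩⟩,
      fun h => h11 ⟨⟨h2, h3, h6⟩, h⟩, fun h => h12 ⟨⟨h2, h3, h6⟩, h⟩,
        fun h => h13 ⟨⟨h2, h3, h6⟩, h⟩, fun h => h15 ⟨⟨h2, h3, h7⟩, h⟩⟩
  have h := card_le_card hcov
  rw [card_univ, Fintype.card_prod] at h
  refine h.trans ?_
  have key : ∀ (A B : Finset (F × F)) (a b : ℕ), #A ≤ a → #B ≤ b → #(A ∪ B) ≤ a + b :=
    fun A B a b ha hb => (card_union_le _ _).trans (add_le_add ha hb)
  refine (key _ _ _ _ le_rfl (key _ _ _ _ c1 (key _ _ _ _ c2 (key _ _ _ _ c3 (key _ _ _ _ c4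
    (key _ _ _ _ c5 (key _ _ _ _ c6 (key _ _ _ _ c7 (key _ _ _ _ (cQ1 _) (key _ _ _ _ (cQ1 _)
    (key _ _ _ _ (cQ1 _) (key _ _ _ _ (cQ3 _) (key _ _ _ _ (cQ3 _) (key _ _ _ _ (cQ3 _)
    (key _ _ _ _ c14 c15))))))))))))))).trans ?_
  apply le_of_eq
  ring

/-- every element is in few of the sets -/
theorem card_deg {τ ρ : F → F} (hρ : ∀ x, τ (ρ x) = x) (a0 a5 σ S T : F) (b : F) :
    #{p ∈ prs (Good ρ a0 a5 σ S T) | b ∈ quad ρ a0 σ S T p} ≤ 5 * Fintype.card F := by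
  let R1 : F → F → Prop := fun u _ => a0 + u = b
  let R2 : F → F → Prop := fun _ w => a0 + w = b
  let Q1 : F → F → Prop := fun u w =>
    (u ≠ 0 ∧ w ≠ 0 ∧ S * u + T ≠ 0) ∧ A1 ρ σ S T u w = b
  let Q3 : F → F → Prop := fun u w =>
    (w ≠ 0 ∧ w ≠ u ∧ S * u + T ≠ 0) ∧ A3 ρ σ S T u w = b
  have c1 : #(prs R1) ≤ 1 * Fintype.card F :=
    card_rel_le' R1 1 fun w => card_le_one_of _
      (by rintro x y hx hy; exact add_left_cancel (hx.trans hy.symm))
  have c2 : #(prs R2) ≤ 1 * Fintype.card F :=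
    card_rel_le R2 1 fun w => card_le_one_of _
      (by rintro x y hx hy; exact add_left_cancel (hx.trans hy.symm))
  have cQ1 : #(prs Q1) ≤ 1 * Fintype.card F :=
    card_rel_le Q1 1 fun u => card_le_one_of _ (by
      rintro x y ⟨⟨hu, hw, hne⟩, he⟩ ⟨⟨-, hw', -⟩, he'⟩
      exact A1_unique hρ hu hw hw' hne he he')
  have cQ3 : #(prs Q3) ≤ 2 * Fintype.card F :=
    card_rel_le Q3 2 fun u => card_le_two_of _ (fun w => u - w) (by
      rintro x y ⟨⟨hw, hwu, hne⟩, he⟩ ⟨⟨hw', hwu', -⟩, he'⟩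
      exact A3_two hρ hw hwu hw' hwu' hne he he')
  have hcov : {p ∈ prs (Good ρ a0 a5 σ S T) | b ∈ quad ρ a0 σ S T p} ⊆
      prs R1 ∪ (prs R2 ∪ (prs Q1 ∪ prs Q3)) := by
    rintro ⟨u, w⟩ hp
    rw [mem_filter, mem_prs] at hp
    simp only [Good, quad, mem_insert, mem_singleton] at hp
    simp only [mem_union, mem_prs, R1, R2, Q1, Q3]
    obtain ⟨⟨hu, hw, hwu, h1, h2, h3, h4, -⟩, h5⟩ := hp
    rcases h5 with h5 | h5 | h5 | h5
    · exact Or.inr (Or.inr (Or.inl ⟨⟨hu, hw, h3⟩, h5.symm⟩))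
    · exact Or.inl h5.symm
    · exact Or.inr (Or.inr (Or.inr ⟨⟨hw, hwu, h3⟩, h5.symm⟩))
    · exact Or.inr (Or.inl h5.symm)
  have key : ∀ (A B : Finset (F × F)) (a b : ℕ), #A ≤ a → #B ≤ b → #(A ∪ B) ≤ a + b :=
    fun A B a b ha hb => (card_union_le _ _).trans (add_le_add ha hb)
  refine (card_le_card hcov).trans
    ((key _ _ _ _ c1 (key _ _ _ _ c2 (key _ _ _ _ cQ1 cQ3))).trans ?_)
  apply le_of_eq
  ring

end Pool.Agent.Q257.C6
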