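import Pool.Agent.Q257.C6.Main

/-!
`C₆`-saturated graphs without four-cycles, for every large number of vertices.
-/

namespace Pool.Agent.Q257.C6

open Finset

/-- the induced graph is saturated -/
lemma sat_of {F : Type*} [Field F] (τ : F →+* F) {n : ℕ}
    (e : Fin n ↪ F × F × F) (A : Finset F) (hA : ∀ x : F × F × F, x.1 ∈ A → ∃ i, e i = x)
    (hp : ∀ x0 x5 : F × F × F, ¬ Rel τ x0 x5 → Path τ A x0 x5) (u v : Fin n) (huv : u ≠ v)
    (hadj : ¬ ((Gr τ).comap e).Adj u v) :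
    (SimpleGraph.cycleGraph 6).IsContained ((Gr τ).comap e ⊔ SimpleGraph.edge u v) := by
  have hr : ¬ Rel τ (e u) (e v) := fun h => hadj ⟨fun h' => huv (e.injective h'), h⟩
  obtain ⟨x1, x2, x3, x4, ⟨r1, r2, r3, r4, r5⟩, ⟨m1, m2, m3, m4⟩, ⟨n1, n2, n3, n4⟩,
    ⟨n5, n6, n7, n8⟩, n9, n10, n11, n12, n13, n14⟩ := hp _ _ hr
  obtain ⟨i1, rfl⟩ := hA x1 m1
  obtain ⟨i2, rfl⟩ := hA x2 m2
  obtain ⟨i3, rfl⟩ := hA x3 m3
  obtain ⟨i4, rfl⟩ := hA x4 m4
  have key : ∀ i j : Fin n, (e i).1 ≠ (e j).1 → i ≠ j := fun i j h h' => h (by rw [h'])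
  have kad : ∀ i j : Fin n, Rel τ (e i) (e j) → i ≠ j →
      ((Gr τ).comap e ⊔ SimpleGraph.edge u v).Adj i j := fun i j h h' =>
    Or.inl ⟨fun h'' => h' (e.injective h''), h⟩
  have g1 := key _ _ n1
  have g2 := key _ _ n2
  have g3 := key _ _ n3
  have g4 := key _ _ n4
  have g5 := key _ _ n5
  have g6 := key _ _ n6
  have g7 := key _ _ n7
  have g8 := key _ _ n8
  have g9 := key _ _ n9
  have g10 := key _ _ n10
  have g11 := key _ _ n11
  have g12 := key _ _ n12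
  have g13 := key _ _ n13
  have g14 := key _ _ n14
  refine six_contained ![u, i1, i2, i3, i4, v] ?_ ?_ ?_ ?_ ?_ ?_ ?_
  · intro a b hab
    fin_cases a <;> fin_cases b <;> first
      | rfl
      | exact absurd hab huv
      | exact absurd hab.symm huv
      | exact absurd hab g1
      | exact absurd hab g2
      | exact absurd hab g3
      | exact absurd hab g4
      | exact absurd hab g5
      | exact absurd hab g6
      | exact absurd hab g7
      | exact absurd hab g8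
      | exact absurd hab g9
      | exact absurd hab g10
      | exact absurd hab g11
      | exact absurd hab g12
      | exact absurd hab g13
      | exact absurd hab g14
      | exact absurd hab.symm g1
      | exact absurd hab.symm g2
      | exact absurd hab.symm g3
      | exact absurd hab.symm g4
      | exact absurd hab.symm g5
      | exact absurd hab.symm g6
      | exact absurd hab.symm g7
      | exact absurd hab.symm g8
      | exact absurd hab.symm g9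
      | exact absurd hab.symm g10
      | exact absurd hab.symm g11
      | exact absurd hab.symm g12
      | exact absurd hab.symm g13
      | exact absurd hab.symm g14
  · exact kad u i1 r1 g1.symm
  · exact kad i1 i2 r2 g9
  · exact kad i2 i3 r3 g12
  · exact kad i3 i4 r4 g14
  · exact kad i4 v r5 g8
  · exact Or.inr ((SimpleGraph.edge_adj u v v u).2 ⟨Or.inr ⟨rfl, rfl⟩, huv.symm⟩)

/-- the numbers -/
lemma numbers : ∃ N0 : ℕ, ∀ N ≥ N0,
    (64 * N) ^ 6 * 64 * (64 ^ 4 - 1) ^ (2 * N) < (64 ^ 4) ^ (2 * N) := by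
  set r : ℝ := ((64 ^ 4 - 1) / 64 ^ 4) ^ 2 with hr
  have hr1 : |r| < 1 := by
    rw [hr, abs_of_nonneg (by positivity)]
    norm_num
  have h := tendsto_pow_const_mul_const_pow_of_abs_lt_one 6 hr1
  have h2 := (h.eventually (gt_mem_nhds (show (0 : ℝ) < 1 / 64 ^ 7 by positivity)))
  obtain ⟨N0, hN0⟩ := Filter.eventually_atTop.1 h2
  refine ⟨N0, fun N hN => ?_⟩
  have h3 := hN0 N hN
  have h4 : (0 : ℝ) < (64 ^ 4) ^ (2 * N) := by positivity
  have h5 : r ^ N * (64 ^ 4) ^ (2 * N) = (64 ^ 4 - 1 : ℝ) ^ (2 * N) := by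
    rw [hr, pow_mul, pow_mul, ← mul_pow]
    congr 1
    norm_num
  have h6 : ((64 * N) ^ 6 * 64 * (64 ^ 4 - 1) ^ (2 * N) : ℝ) < (64 ^ 4) ^ (2 * N) := by
    rw [← h5]
    calc ((64 * N) ^ 6 * 64 * (r ^ N * (64 ^ 4) ^ (2 * N)) : ℝ)
        = 64 ^ 7 * ((N : ℝ) ^ 6 * r ^ N) * (64 ^ 4) ^ (2 * N) := by ring
      _ < 64 ^ 7 * (1 / 64 ^ 7) * (64 ^ 4) ^ (2 * N) := by
          apply mul_lt_mul_of_pos_right _ h4
          apply mul_lt_mul_of_pos_left h3
          positivity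
      _ = (64 ^ 4) ^ (2 * N) := by
          rw [mul_one_div_cancel (by positivity), one_mul]
  have h7 : ((64 * N) ^ 6 * 64 * (64 ^ 4 - 1) ^ (2 * N) : ℕ) < ((64 ^ 4) ^ (2 * N) : ℕ) := by
    have h8 : (((64 * N) ^ 6 * 64 * (64 ^ 4 - 1) ^ (2 * N) : ℕ) : ℝ) <
        (((64 ^ 4) ^ (2 * N) : ℕ) : ℝ) := by
      rw [Nat.cast_mul, Nat.cast_mul, Nat.cast_pow, Nat.cast_mul, Nat.cast_pow, Nat.cast_pow,
        Nat.cast_pow, Nat.cast_sub (by norm_num)]
      push_cast
      have h9 : ((64 : ℝ) ^ 4 - 1) = 16777216 - 1 := by norm_num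
      rw [h9] at h6
      exact h6
    exact_mod_cast h8
  exact h7

/-- the field and its automorphism -/
lemma exists_field (j : ℕ) : ∃ (F : Type) (_ : Field F) (_ : Fintype F) (τ : F →+* F),
    Fintype.card F = 64 * 2 ^ (2 * j + 1) ∧ ∀ x, τ (τ x) = x ^ 2 := by
  classical
  have : Fact (Nat.Prime 2) := ⟨Nat.prime_two⟩
  let F := GaloisField 2 (2 * j + 7)
  have hF : Fintype F := Fintype.ofFinite F
  have hc : Fintype.card F = 2 ^ (2 * j + 7) := by
    rw [← Nat.card_eq_fintype_card]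
    exact GaloisField.card 2 (2 * j + 7) (by omega)
  refine ⟨F, inferInstance, hF, iterateFrobenius F 2 (j + 4), ?_, ?_⟩
  · rw [hc, pow_add, show 2 * j + 1 = 2 * j + 1 from rfl, pow_add]
    ring
  · intro x
    rw [iterateFrobenius_def, iterateFrobenius_def, ← pow_mul, ← pow_add,
      show (j + 4) + (j + 4) = (2 * j + 7) + 1 by ring, pow_succ, pow_mul, ← hc,
      FiniteField.pow_card]

/-- for every large `n` -/
theorem main : ∃ n₀ : ℕ, ∀ n ≥ n₀, ∃ G : SimpleGraph (Fin n),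
    (SimpleGraph.cycleGraph 4).Free G ∧ (SimpleGraph.cycleGraph 6).Free G ∧
    ∀ u v, u ≠ v → ¬ G.Adj u v →
      (SimpleGraph.cycleGraph 6).IsContained (G ⊔ SimpleGraph.edge u v) := by
  classical
  obtain ⟨N0, hN0⟩ := numbers
  refine ⟨(64 * 2 ^ (2 * N0 + 1)) ^ 3 + 1, fun n hn => ?_⟩
  -- the size of the field
  have hex : ∃ j : ℕ, n ≤ (64 * 2 ^ (2 * j + 1)) ^ 3 := by
    refine ⟨n, ?_⟩
    have h1 : n < 2 ^ n := Nat.lt_two_pow_self
    have h2 : 2 ^ n ≤ 2 ^ (2 * n + 1) := Nat.pow_le_pow_right (by norm_num) (by omega)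
    have h3 : 2 ^ (2 * n + 1) ≤ 64 * 2 ^ (2 * n + 1) := by omega
    have h4 : 64 * 2 ^ (2 * n + 1) ≤ (64 * 2 ^ (2 * n + 1)) ^ 3 :=
      Nat.le_self_pow (by norm_num) _
    omega
  obtain ⟨j, hj1, hj2⟩ : ∃ j, n ≤ (64 * 2 ^ (2 * j + 1)) ^ 3 ∧
      ∀ i < j, ¬ n ≤ (64 * 2 ^ (2 * i + 1)) ^ 3 :=
    ⟨Nat.find hex, Nat.find_spec hex, fun i hi => Nat.find_min hex hi⟩
  have hmono : ∀ a b : ℕ, a ≤ b → (64 * 2 ^ (2 * a + 1)) ^ 3 ≤ (64 * 2 ^ (2 * b + 1)) ^ 3 := by
    intro a b hab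
    apply Nat.pow_le_pow_left
    apply Nat.mul_le_mul_left
    exact Nat.pow_le_pow_right (by norm_num) (by omega)
  have hjN : N0 < j := by
    by_contra hcon
    have := hmono j N0 (not_lt.1 hcon)
    omega
  obtain ⟨i, rfl⟩ : ∃ i, j = i + 1 := ⟨j - 1, by omega⟩
  have hlow : (64 * 2 ^ (2 * i + 1)) ^ 3 < n := not_le.1 (hj2 i (by omega))
  set N := 2 ^ (2 * (i + 1) + 1) with hN
  have hN1 : N0 ≤ N := by
    have h1 : i + 1 < 2 ^ (i + 1) := Nat.lt_two_pow_self
    have h2 : 2 ^ (i + 1) ≤ N := Nat.pow_le_pow_right (by norm_num) (by omega)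
    omega
  have hN4 : N = 4 * 2 ^ (2 * i + 1) := by
    rw [hN, show 2 * (i + 1) + 1 = 2 + (2 * i + 1) by ring, pow_add]
    norm_num
  obtain ⟨F, hField, hFin, τ, hc, hτ⟩ := exists_field (i + 1)
  rw [← hN] at hc
  obtain ⟨A, hA, hp⟩ := exists_A τ hτ N (by positivity) hc (hN0 N hN1)
  -- the vertices
  have hV : #(A ×ˢ (univ : Finset (F × F))) ≤ n := by
    rw [card_product, card_univ, Fintype.card_prod, hc]
    calc #A * (64 * N * (64 * N)) ≤ N * (64 * N * (64 * N)) := Nat.mul_le_mul_right _ hA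
      _ = (64 * 2 ^ (2 * i + 1)) ^ 3 := by
          rw [hN4]
          ring
      _ ≤ n := hlow.le
  have hU : n ≤ #(univ : Finset (F × F × F)) := by
    rw [card_univ, Fintype.card_prod, Fintype.card_prod, hc]
    calc n ≤ (64 * N) ^ 3 := hj1
      _ = 64 * N * (64 * N * (64 * N)) := by ring
  obtain ⟨S, hS1, -, hS3⟩ := Finset.exists_subsuperset_card_eq (subset_univ _) hV hU
  let eq := Finset.equivFinOfCardEq hS3
  let e : Fin n ↪ F × F × F := eq.symm.toEmbedding.trans (Function.Embedding.subtype _)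
  have he : ∀ x ∈ S, ∃ k, e k = x := by
    intro x hx
    refine ⟨eq ⟨x, hx⟩, ?_⟩
    simp [e]
  refine ⟨(Gr τ).comap e, four_free τ e, six_free τ hτ e, fun u v huv hadj => ?_⟩
  exact sat_of τ e A (fun x hx => he x (hS1 (by simp [hx]))) hp u v huv hadj

end Pool.Agent.Q257.C6
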