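import Pool.Agent.Q257.C6.Alg
import Pool.Agent.Q257.C6.Comb
import Pool.Agent.Q257.C6.Count

/-!
Many vertex sets of the polarity graph induce `C₆`-saturated graphs.
-/

namespace Pool.Agent.Q257.C6

open Finset

section Field

variable {F : Type*} [Field F] (τ : F →+* F)

/-- the first defect of a pair -/
def SS (x0 x5 : F × F × F) : F := x0.1 * τ x5.1 - (x0.2.1 + x5.2.2)

/-- the second defect of a pair -/
def TT (x0 x5 : F × F × F) : F :=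
  τ (x0.2.2 + x5.2.1) + x0.1 ^ 2 * τ x5.1 - 2 * x0.1 * (x0.2.1 + x5.2.2)

lemma not_rel (hτ : ∀ x, τ (τ x) = x ^ 2) {x0 x5 : F × F × F} (h : ¬ Rel τ x0 x5) :
    ¬ (SS τ x0 x5 = 0 ∧ TT τ x0 x5 = 0) := by
  rintro ⟨h1, h2⟩
  apply h
  unfold SS at h1
  unfold TT at h2
  refine ⟨by linear_combination -h1, ?_⟩
  apply τ.injective
  rw [map_mul, hτ]
  linear_combination h2 - 2 * x0.1 * h1

/-- a path of length five with interior first coordinates in `A` -/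
def Path (A : Finset F) (x0 x5 : F × F × F) : Prop :=
  ∃ x1 x2 x3 x4 : F × F × F,
    (Rel τ x0 x1 ∧ Rel τ x1 x2 ∧ Rel τ x2 x3 ∧ Rel τ x3 x4 ∧ Rel τ x4 x5) ∧
    (x1.1 ∈ A ∧ x2.1 ∈ A ∧ x3.1 ∈ A ∧ x4.1 ∈ A) ∧
    (x1.1 ≠ x0.1 ∧ x2.1 ≠ x0.1 ∧ x3.1 ≠ x0.1 ∧ x4.1 ≠ x0.1) ∧
    (x1.1 ≠ x5.1 ∧ x2.1 ≠ x5.1 ∧ x3.1 ≠ x5.1 ∧ x4.1 ≠ x5.1) ∧
    (x1.1 ≠ x2.1 ∧ x1.1 ≠ x3.1 ∧ x1.1 ≠ x4.1 ∧ x2.1 ≠ x3.1 ∧ x2.1 ≠ x4.1 ∧ x3.1 ≠ x4.1)

variable [DecidableEq F]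

lemma path_of_good (hτ : ∀ x, τ (τ x) = x ^ 2) {ρ : F → F} (hρ : ∀ x, τ (ρ x) = x)
    {x0 x5 : F × F × F} {p : F × F} {A : Finset F}
    (hg : Good ρ x0.1 x5.1 (τ x5.1) (SS τ x0 x5) (TT τ x0 x5) p.1 p.2)
    (hA : quad ρ x0.1 (τ x5.1) (SS τ x0 x5) (TT τ x0 x5) p ⊆ A) : Path τ A x0 x5 := by
  obtain ⟨hu, hw, hwu, h1, h2, h3, h4, ⟨h5, h6, h7, h8⟩, h9, h10, h11, h12⟩ := hg
  have h13 := A1_ne_A3 hρ (σ := τ x5.1) hu hw hwu h4
  have e1 := A1_eq hρ (σ := τ x5.1) (S := SS τ x0 x5) (T := TT τ x0 x5) hu hw rfl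
  have e3 := A3_eq hρ (σ := τ x5.1) (S := SS τ x0 x5) (T := TT τ x0 x5) hw hwu rfl
  obtain ⟨x1, x2, x3, x4, r1, r2, r3, r4, r5, f1, f2, f3, f4⟩ :=
    walk_of τ hτ x0 x5 p.1 p.2 _ _ hu hw (sub_ne_zero.2 hwu) e1 e3
  refine ⟨x1, x2, x3, x4, ⟨r1, r2, r3, r4, r5⟩, ?_, ?_, ?_, ?_⟩
  · rw [f1, f2, f3, f4]
    refine ⟨hA ?_, hA ?_, hA ?_, hA ?_⟩ <;> simp [quad]
  · rw [f1, f2, f3, f4]
    exact ⟨h5, fun h => hu (by simpa using h), h9, fun h => hw (by simpa using h)⟩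
  · rw [f1, f2, f3, f4]
    exact ⟨h6, h1, h10, h2⟩
  · rw [f1, f2, f3, f4]
    exact ⟨h7, h13, h8, fun h => h11 h.symm, fun h => hwu (add_left_cancel h).symm, h12⟩

variable [Fintype F]

/-- the small set of first coordinates -/
theorem exists_A (hτ : ∀ x, τ (τ x) = x ^ 2) (N : ℕ) (hN : 0 < N)
    (hq : Fintype.card F = 64 * N)
    (hlt : (64 * N) ^ 6 * 64 * (64 ^ 4 - 1) ^ (2 * N) < (64 ^ 4) ^ (2 * N)) :
    ∃ A : Finset F, #A ≤ N ∧ ∀ x0 x5 : F × F × F, ¬ Rel τ x0 x5 → Path τ A x0 x5 := by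
  classical
  have hsur : Function.Surjective τ := Finite.injective_iff_surjective.1 τ.injective
  let ρ : F → F := Function.surjInv hsur
  have hρ : ∀ x, τ (ρ x) = x := Function.surjInv_eq hsur
  let π : Type _ := {p : (F × F × F) × (F × F × F) // ¬ Rel τ p.1 p.2}
  let G : π → Finset (F × F) := fun p =>
    prs (Good ρ p.1.1.1 p.1.2.1 (τ p.1.2.1) (SS τ p.1.1 p.1.2) (TT τ p.1.1 p.1.2))
  let f : π → F × F → Finset F := fun p =>
    quad ρ p.1.1.1 (τ p.1.2.1) (SS τ p.1.1 p.1.2) (TT τ p.1.1 p.1.2)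
  have h4 : ∀ p, ∀ g ∈ G p, #(f p g) = 4 := fun p g hg => card_quad hρ (mem_prs.1 hg)
  have hgr : ∀ p : π, ∃ s : Finset (F × F), s ⊆ G p ∧ #s = 2 * N ∧
      (∀ g ∈ s, ∀ g' ∈ s, g ≠ g' → Disjoint (f p g) (f p g')) := by
    intro p
    apply greedy (G p) (f p) (5 * Fintype.card F) (h4 p)
      (fun b => card_deg hρ _ _ _ _ _ b) (2 * N)
    have h1 := card_good hρ p.1.1.1 p.1.2.1 (τ p.1.2.1) (SS τ p.1.1 p.1.2) (TT τ p.1.1 p.1.2)
      (not_rel τ hτ p.2)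
    rw [hq] at h1 ⊢
    have h2 : N ≤ N * N := Nat.le_mul_of_pos_left N hN
    change 64 * N * (64 * N) ≤ #(G p) + 18 * (64 * N) at h1
    nlinarith
  choose s hs1 hs2 hs3 using hgr
  have hcard : Fintype.card π ≤ (64 * N) ^ 6 := by
    calc Fintype.card π ≤ Fintype.card ((F × F × F) × (F × F × F)) := Fintype.card_subtype_le _
      _ = (64 * N) ^ 6 := by
          simp only [Fintype.card_prod, hq]
          ring
  obtain ⟨A, hA1, hA2⟩ := exists_class (k := 64) (by norm_num) f s (2 * N) N hs2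
    (fun p g hg => h4 p g (hs1 p hg)) hs3
    (lt_of_le_of_lt (Nat.mul_le_mul_right _ (Nat.mul_le_mul_right _ hcard)) hlt) hq.le
  refine ⟨A, hA1, fun x0 x5 hx => ?_⟩
  obtain ⟨g, hg, hgA⟩ := hA2 ⟨(x0, x5), hx⟩
  exact path_of_good τ hτ hρ (mem_prs.1 (hs1 _ hg)) hgA

end Field

section Graph

/-- a copy of the six-cycle -/
lemma six_contained {V : Type*} {H : SimpleGraph V} (f : Fin 6 → V) (hf : Function.Injective f)
    (h0 : H.Adj (f 0) (f 1)) (h1 : H.Adj (f 1) (f 2)) (h2 : H.Adj (f 2) (f 3))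
    (h3 : H.Adj (f 3) (f 4)) (h4 : H.Adj (f 4) (f 5)) (h5 : H.Adj (f 5) (f 0)) :
    (SimpleGraph.cycleGraph 6).IsContained H := by
  refine ⟨⟨⟨f, ?_⟩, hf⟩⟩
  intro a b hab
  rw [SimpleGraph.cycleGraph_adj] at hab
  fin_cases a <;> fin_cases b <;>
    first
    | exact h0
    | exact h1
    | exact h2
    | exact h3
    | exact h4
    | exact h5
    | exact h0.symm
    | exact h1.symm
    | exact h2.symm
    | exact h3.symm
    | exact h4.symm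
    | exact h5.symm
    | (exfalso; revert hab; decide)

/-- the graph on `Fin n` that an embedding into the polarity graph induces has no four-cycle -/
lemma four_free {F : Type*} [Field F] (τ : F →+* F) {n : ℕ} (e : Fin n ↪ F × F × F) :
    (SimpleGraph.cycleGraph 4).Free ((Gr τ).comap e) := by
  rintro ⟨⟨f, hf⟩⟩
  have hadj : ∀ a b : Fin 4, (SimpleGraph.cycleGraph 4).Adj a b → Rel τ (e (f a)) (e (f b)) :=
    fun a b h => (f.map_adj h).2
  have h01 := hadj 0 1 (by rw [SimpleGraph.cycleGraph_adj]; decide)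
  have h12 := hadj 1 2 (by rw [SimpleGraph.cycleGraph_adj]; decide)
  have h03 := hadj 0 3 (by rw [SimpleGraph.cycleGraph_adj]; decide)
  have h32 := hadj 3 2 (by rw [SimpleGraph.cycleGraph_adj]; decide)
  have h := no_four τ h01 h12 h03 h32 (fun h => by
    have := hf (e.injective h)
    exact absurd this (by decide))
  have := hf (e.injective h)
  exact absurd this (by decide)

/-- the graph on `Fin n` that an embedding into the polarity graph induces has no six-cycle -/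
lemma six_free {F : Type*} [Field F] (τ : F →+* F) (hτ : ∀ x, τ (τ x) = x ^ 2) {n : ℕ}
    (e : Fin n ↪ F × F × F) : (SimpleGraph.cycleGraph 6).Free ((Gr τ).comap e) := by
  rintro ⟨⟨f, hf⟩⟩
  have hadj : ∀ a b : Fin 6, (SimpleGraph.cycleGraph 6).Adj a b → Rel τ (e (f a)) (e (f b)) :=
    fun a b h => (f.map_adj h).2
  have hne : ∀ a b : Fin 6, a ≠ b → e (f a) ≠ e (f b) := fun a b h h' => h (hf (e.injective h'))
  exact no_six τ hτ (hadj 0 1 (by rw [SimpleGraph.cycleGraph_adj]; decide))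
    (hadj 1 2 (by rw [SimpleGraph.cycleGraph_adj]; decide))
    (hadj 2 3 (by rw [SimpleGraph.cycleGraph_adj]; decide))
    (hadj 3 4 (by rw [SimpleGraph.cycleGraph_adj]; decide))
    (hadj 4 5 (by rw [SimpleGraph.cycleGraph_adj]; decide))
    (hadj 5 0 (by rw [SimpleGraph.cycleGraph_adj]; decide))
    (hne 2 4 (by decide)) (hne 0 2 (by decide)) (hne 1 3 (by decide))

end Graph

end Pool.Agent.Q257.C6
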